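import Pool.Agent.Q188.FC.StmG
import Pool.Agent.W933.FV.GM
import Pool.Agent.W762.FV.GI

/-!
# Project FC, lemma PL: locally Lipschitz functions of polynomial growth
-/

set_option autoImplicit false

open MeasureTheory Filter Topology Metric

namespace Pool.Agent.Q162.FC.PL

open Pool.Agent.W716.FV (E gam gd UU)
open Pool.Agent.Q188.FC

theorem prob (n : ℕ) : IsProbabilityMeasure (gam n) := (Pool.Agent.W933.FVGM.main n).1

theorem pow_mono {b : ℝ} (hb : 1 ≤ b) {m k : ℕ} (h : m ≤ k) : b ^ m ≤ b ^ k :=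
  pow_le_pow_right₀ hb h

theorem one_le_b {n : ℕ} (x : E n) : 1 ≤ 1 + ‖x‖ := by
  have := norm_nonneg x
  linarith

theorem one_le_bb {n : ℕ} (x y : E n) : 1 ≤ 1 + ‖x‖ + ‖y‖ := by
  have := norm_nonneg x
  have := norm_nonneg y
  linarith

/-- polynomial growth functions are integrable -/
theorem int_pow (n m : ℕ) : Integrable (fun x : E n => (1 + ‖x‖) ^ m) (gam n) := by
  haveI := prob n
  have h1 : Integrable (fun x : E n => (2 : ℝ) ^ m * (1 + ‖x‖ ^ m)) (gam n) :=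
    ((integrable_const (1 : ℝ)).add ((Pool.Agent.W933.FVGM.main n).2.1 m)).const_mul _
  refine h1.mono' (by fun_prop) (Eventually.of_forall fun x => ?_)
  have hx := norm_nonneg x
  rw [Real.norm_eq_abs, abs_of_nonneg (by positivity)]
  rcases le_total ‖x‖ 1 with h | h
  · calc (1 + ‖x‖) ^ m ≤ 2 ^ m := pow_le_pow_left₀ (by positivity) (by linarith) m
      _ ≤ 2 ^ m * (1 + ‖x‖ ^ m) := by
        have : 0 ≤ ‖x‖ ^ m := by positivity
        have h2 : (0 : ℝ) < 2 ^ m := by positivity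
        nlinarith
  · calc (1 + ‖x‖) ^ m ≤ (2 * ‖x‖) ^ m := pow_le_pow_left₀ (by positivity) (by linarith) m
      _ = 2 ^ m * ‖x‖ ^ m := mul_pow _ _ _
      _ ≤ 2 ^ m * (1 + ‖x‖ ^ m) := by
        have h2 : (0 : ℝ) < 2 ^ m := by positivity
        nlinarith

theorem pb_int {n : ℕ} (f : E n → ℝ) (hf : AEStronglyMeasurable f (gam n)) (hb : PB f) :
    Integrable f (gam n) := by
  obtain ⟨C, m, hC, h⟩ := hb
  exact ((int_pow n m).const_mul C).mono' hf (Eventually.of_forall fun x => by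
    rw [Real.norm_eq_abs]
    exact h x)

theorem pb_add {n : ℕ} {f g : E n → ℝ} (hf : PB f) (hg : PB g) : PB (fun x => f x + g x) := by
  obtain ⟨C, m, hC, h⟩ := hf
  obtain ⟨D, k, hD, h'⟩ := hg
  refine ⟨C + D, m + k, by positivity, fun x => ?_⟩
  have h1 := pow_mono (one_le_b x) (Nat.le_add_right m k)
  have h2 := pow_mono (one_le_b x) (Nat.le_add_left k m)
  calc |f x + g x| ≤ |f x| + |g x| := abs_add_le _ _
    _ ≤ C * (1 + ‖x‖) ^ m + D * (1 + ‖x‖) ^ k := add_le_add (h x) (h' x)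
    _ ≤ C * (1 + ‖x‖) ^ (m + k) + D * (1 + ‖x‖) ^ (m + k) :=
      add_le_add (mul_le_mul_of_nonneg_left h1 hC) (mul_le_mul_of_nonneg_left h2 hD)
    _ = _ := by ring

theorem pb_mul {n : ℕ} {f g : E n → ℝ} (hf : PB f) (hg : PB g) : PB (fun x => f x * g x) := by
  obtain ⟨C, m, hC, h⟩ := hf
  obtain ⟨D, k, hD, h'⟩ := hg
  refine ⟨C * D, m + k, by positivity, fun x => ?_⟩
  have hx := norm_nonneg x
  calc |f x * g x| = |f x| * |g x| := abs_mul _ _
    _ ≤ (C * (1 + ‖x‖) ^ m) * (D * (1 + ‖x‖) ^ k) :=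
      mul_le_mul (h x) (h' x) (abs_nonneg _) (by positivity)
    _ = _ := by rw [pow_add]; ring

theorem pl_pb {n : ℕ} {h : E n → ℝ} (hh : PL h) : PB h := by
  obtain ⟨C, m, hC, hl⟩ := hh
  refine ⟨|h 0| + C, m + 1, by positivity, fun x => ?_⟩
  have hx := norm_nonneg x
  have h1 := hl x 0
  simp only [sub_zero, norm_zero, add_zero] at h1
  have h2 : (1 : ℝ) ≤ (1 + ‖x‖) ^ (m + 1) := one_le_pow₀ (one_le_b x)
  have h3 : (1 + ‖x‖) ^ m * ‖x‖ ≤ (1 + ‖x‖) ^ (m + 1) := by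
    rw [pow_succ]
    exact mul_le_mul_of_nonneg_left (by linarith) (by positivity)
  calc |h x| = |h 0 + (h x - h 0)| := by ring_nf
    _ ≤ |h 0| + |h x - h 0| := abs_add_le _ _
    _ ≤ |h 0| * (1 + ‖x‖) ^ (m + 1) + C * (1 + ‖x‖) ^ (m + 1) := by
      refine add_le_add ?_ (h1.trans ?_)
      · exact le_mul_of_one_le_right (abs_nonneg _) h2
      · rw [mul_assoc]
        exact mul_le_mul_of_nonneg_left h3 hC
    _ = _ := by ring

theorem lipOn {n : ℕ} {h : E n → ℝ} {C : ℝ} {m : ℕ} (hC : 0 ≤ C)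
    (hl : ∀ x y, |h x - h y| ≤ C * (1 + ‖x‖ + ‖y‖) ^ m * ‖x - y‖) (R : ℝ) :
    LipschitzOnWith (Real.toNNReal (C * (1 + R + R) ^ m)) h (ball 0 R) := by
  apply LipschitzOnWith.of_dist_le_mul
  intro x hx y hy
  rw [mem_ball_zero_iff] at hx hy
  have hR : 0 ≤ R := (norm_nonneg x).trans hx.le
  rw [Real.dist_eq, dist_eq_norm, Real.coe_toNNReal _ (by positivity)]
  refine (hl x y).trans (mul_le_mul_of_nonneg_right (mul_le_mul_of_nonneg_left ?_ hC)
    (norm_nonneg _))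
  exact pow_le_pow_left₀ (by positivity) (by linarith) m

theorem pl_cont {n : ℕ} {h : E n → ℝ} (hh : PL h) : Continuous h := by
  obtain ⟨C, m, hC, hl⟩ := hh
  rw [continuous_iff_continuousAt]
  intro x
  refine (lipOn hC hl (‖x‖ + 1)).continuousOn.continuousAt (isOpen_ball.mem_nhds ?_)
  rw [mem_ball_zero_iff]
  linarith

theorem pl_diff {n : ℕ} {h : E n → ℝ} (hh : PL h) :
    ∀ᵐ x ∂(volume : Measure (E n)), DifferentiableAt ℝ h x := by
  obtain ⟨C, m, hC, hl⟩ := hh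
  have h1 : ∀ k : ℕ, ∀ᵐ x ∂(volume : Measure (E n)), x ∈ ball (0 : E n) k →
      DifferentiableWithinAt ℝ h (ball 0 k) x :=
    fun k => (lipOn hC hl k).ae_differentiableWithinAt_of_mem
  rw [← ae_all_iff] at h1
  filter_upwards [h1] with x hx
  obtain ⟨k, hk⟩ := exists_nat_gt ‖x‖
  have hm : x ∈ ball (0 : E n) k := by
    rw [mem_ball_zero_iff]
    exact hk
  exact (hx k hm).differentiableAt (isOpen_ball.mem_nhds hm)

theorem gam_ac (n : ℕ) : gam n ≪ (volume : Measure (E n)) :=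
  withDensity_absolutelyContinuous _ _

theorem fd_bound {n : ℕ} {h : E n → ℝ} {C : ℝ} {m : ℕ} (hC : 0 ≤ C)
    (hl : ∀ x y, |h x - h y| ≤ C * (1 + ‖x‖ + ‖y‖) ^ m * ‖x - y‖) (x : E n) :
    ‖fderiv ℝ h x‖ ≤ C * 2 ^ m * (1 + ‖x‖) ^ m := by
  refine norm_fderiv_le_of_lip' ℝ (by positivity) ?_
  have hb : ball (0 : E n) (‖x‖ + 1) ∈ 𝓝 x := isOpen_ball.mem_nhds (by
    rw [mem_ball_zero_iff]
    linarith)
  filter_upwards [hb] with y hy
  rw [mem_ball_zero_iff] at hy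
  rw [Real.norm_eq_abs, mul_assoc C, ← mul_pow]
  refine (hl y x).trans (mul_le_mul_of_nonneg_right (mul_le_mul_of_nonneg_left ?_ hC)
    (norm_nonneg _))
  exact pow_le_pow_left₀ (by positivity) (by linarith) m

theorem pl_fd {n : ℕ} {h : E n → ℝ} (hh : PL h) : PB (fun x => ‖fderiv ℝ h x‖) := by
  obtain ⟨C, m, hC, hl⟩ := hh
  refine ⟨C * 2 ^ m, m, by positivity, fun x => ?_⟩
  rw [abs_of_nonneg (norm_nonneg _)]
  exact fd_bound hC hl x

/-- the cut-off -/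
noncomputable def chi {n : ℕ} (R : ℝ) (x : E n) : ℝ := max 0 (min 1 (2 - ‖x‖ / R))

theorem chi_nonneg {n : ℕ} (R : ℝ) (x : E n) : 0 ≤ chi R x := le_max_left _ _

theorem chi_le {n : ℕ} (R : ℝ) (x : E n) : chi R x ≤ 1 := max_le zero_le_one (min_le_left _ _)

theorem chi_one {n : ℕ} {R : ℝ} (hR : 0 < R) {x : E n} (hx : ‖x‖ ≤ R) : chi R x = 1 := by
  unfold chi
  have h1 : ‖x‖ / R ≤ 1 := (div_le_one hR).2 hx
  rw [min_eq_left (by linarith)]
  exact max_eq_right zero_le_one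

theorem chi_zero {n : ℕ} {R : ℝ} (hR : 0 < R) {x : E n} (hx : 2 * R ≤ ‖x‖) : chi R x = 0 := by
  unfold chi
  have h1 : 2 ≤ ‖x‖ / R := (le_div_iff₀ hR).2 hx
  refine max_eq_left ((min_le_right _ _).trans (by linarith))

theorem chi_lip {n : ℕ} {R : ℝ} (hR : 0 < R) (x y : E n) :
    |chi R x - chi R y| ≤ 1 / R * ‖x - y‖ := by
  unfold chi
  have h1 : |max 0 (min 1 (2 - ‖x‖ / R)) - max 0 (min 1 (2 - ‖y‖ / R))| ≤
      |(min 1 (2 - ‖x‖ / R)) - (min 1 (2 - ‖y‖ / R))| := by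
    have := abs_max_sub_max_le_max 0 (min 1 (2 - ‖x‖ / R)) 0 (min 1 (2 - ‖y‖ / R))
    simpa using this
  have h2 : |(min 1 (2 - ‖x‖ / R)) - (min 1 (2 - ‖y‖ / R))| ≤
      |(2 - ‖x‖ / R) - (2 - ‖y‖ / R)| := by
    have := abs_min_sub_min_le_max 1 (2 - ‖x‖ / R) 1 (2 - ‖y‖ / R)
    simpa using this
  refine h1.trans (h2.trans ?_)
  have h3 : (2 - ‖x‖ / R) - (2 - ‖y‖ / R) = 1 / R * (‖y‖ - ‖x‖) := by ring
  rw [h3, abs_mul, abs_of_nonneg (by positivity)]
  refine mul_le_mul_of_nonneg_left ?_ (by positivity)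
  rw [abs_sub_comm]
  exact abs_norm_sub_norm_le x y

/-- the truncated functions satisfy uniform bounds -/
theorem trunc {n : ℕ} {h : E n → ℝ} {C D : ℝ} {m k : ℕ} (hC : 0 ≤ C) (hD : 0 ≤ D)
    (hl : ∀ x y, |h x - h y| ≤ C * (1 + ‖x‖ + ‖y‖) ^ m * ‖x - y‖)
    (hb : ∀ x, |h x| ≤ D * (1 + ‖x‖) ^ k) {R : ℝ} (hR : 1 ≤ R) (x y : E n) :
    |h x * chi R x - h y * chi R y| ≤ (C + D) * (1 + ‖x‖ + ‖y‖) ^ (m + k) * ‖x - y‖ := by
  have hx := norm_nonneg x
  have hy := norm_nonneg y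
  have e : h x * chi R x - h y * chi R y =
      (h x - h y) * chi R x + h y * (chi R x - chi R y) := by ring
  have h1 := pow_mono (one_le_bb x y) (Nat.le_add_right m k)
  have h2 := pow_mono (one_le_bb x y) (Nat.le_add_left k m)
  have h3 : (1 + ‖y‖) ^ k ≤ (1 + ‖x‖ + ‖y‖) ^ k :=
    pow_le_pow_left₀ (by positivity) (by linarith) k
  have h4 : 1 / R ≤ 1 := (div_le_one (by linarith)).2 hR
  rw [e]
  calc |(h x - h y) * chi R x + h y * (chi R x - chi R y)|
      ≤ |(h x - h y) * chi R x| + |h y * (chi R x - chi R y)| := abs_add_le _ _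
    _ = |h x - h y| * chi R x + |h y| * |chi R x - chi R y| := by
      rw [abs_mul, abs_mul, abs_of_nonneg (chi_nonneg R x)]
    _ ≤ (C * (1 + ‖x‖ + ‖y‖) ^ m * ‖x - y‖) * 1 + (D * (1 + ‖y‖) ^ k) * (1 / R * ‖x - y‖) := by
      refine add_le_add (mul_le_mul (hl x y) (chi_le R x) (chi_nonneg R x) (by positivity))
        (mul_le_mul (hb y) (chi_lip (by linarith) x y) (abs_nonneg _) (by positivity))
    _ ≤ (C * (1 + ‖x‖ + ‖y‖) ^ (m + k) * ‖x - y‖) * 1 +
        (D * (1 + ‖x‖ + ‖y‖) ^ (m + k)) * (1 * ‖x - y‖) := by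
      gcongr
      exact h3.trans h2
    _ = _ := by ring

theorem trunc_lip {n : ℕ} {h : E n → ℝ} {C D : ℝ} {m k : ℕ} (hC : 0 ≤ C) (hD : 0 ≤ D)
    (hl : ∀ x y, |h x - h y| ≤ C * (1 + ‖x‖ + ‖y‖) ^ m * ‖x - y‖)
    (hb : ∀ x, |h x| ≤ D * (1 + ‖x‖) ^ k) {R : ℝ} (hR : 1 ≤ R) (x y : E n) :
    |h x * chi R x - h y * chi R y| ≤
      (C * (1 + 2 * R + 2 * R) ^ m + D * (1 + 2 * R) ^ k) * ‖x - y‖ := by
  have hx := norm_nonneg x
  have hy := norm_nonneg y
  have hR0 : 0 < R := by linarith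
  have h4 : 1 / R ≤ 1 := (div_le_one hR0).2 hR
  have key : ∀ x y : E n, ‖x‖ ≤ 2 * R → 2 * R ≤ ‖y‖ → |h x * chi R x - h y * chi R y| ≤
      (C * (1 + 2 * R + 2 * R) ^ m + D * (1 + 2 * R) ^ k) * ‖x - y‖ := by
    intro x y hx2 hy2
    have e : h x * chi R x - h y * chi R y = h x * (chi R x - chi R y) := by
      rw [chi_zero hR0 hy2]
      ring
    rw [e, abs_mul]
    calc |h x| * |chi R x - chi R y| ≤ (D * (1 + 2 * R) ^ k) * (1 / R * ‖x - y‖) := by
          refine mul_le_mul ((hb x).trans ?_) (chi_lip hR0 x y) (abs_nonneg _) (by positivity)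
          gcongr
      _ ≤ (D * (1 + 2 * R) ^ k) * (1 * ‖x - y‖) := by gcongr
      _ ≤ _ := by
        have : 0 ≤ C * (1 + 2 * R + 2 * R) ^ m * ‖x - y‖ := by positivity
        nlinarith
  rcases le_total ‖x‖ (2 * R) with h1 | h1
  · rcases le_total ‖y‖ (2 * R) with h2 | h2
    · have e : h x * chi R x - h y * chi R y =
          (h x - h y) * chi R x + h y * (chi R x - chi R y) := by ring
      rw [e]
      calc |(h x - h y) * chi R x + h y * (chi R x - chi R y)|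
          ≤ |(h x - h y) * chi R x| + |h y * (chi R x - chi R y)| := abs_add_le _ _
        _ = |h x - h y| * chi R x + |h y| * |chi R x - chi R y| := by
          rw [abs_mul, abs_mul, abs_of_nonneg (chi_nonneg R x)]
        _ ≤ (C * (1 + ‖x‖ + ‖y‖) ^ m * ‖x - y‖) * 1 +
            (D * (1 + ‖y‖) ^ k) * (1 / R * ‖x - y‖) := by
          refine add_le_add (mul_le_mul (hl x y) (chi_le R x) (chi_nonneg R x) (by positivity))
            (mul_le_mul (hb y) (chi_lip (by linarith) x y) (abs_nonneg _) (by positivity))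
        _ ≤ (C * (1 + 2 * R + 2 * R) ^ m * ‖x - y‖) * 1 +
            (D * (1 + 2 * R) ^ k) * (1 * ‖x - y‖) := by gcongr
        _ = _ := by ring
    · exact key x y h1 h2
  · rcases le_total ‖y‖ (2 * R) with h2 | h2
    · rw [abs_sub_comm, norm_sub_rev]
      exact key y x h2 h1
    · rw [chi_zero hR0 h1, chi_zero hR0 h2]
      simp only [mul_zero, sub_self, abs_zero]
      positivity

theorem pl_ibp {n : ℕ} {h : E n → ℝ} (hh : PL h) (v : E n) :
    ∫ x, h x * inner ℝ x v ∂(gam n) = ∫ x, fderiv ℝ h x v ∂(gam n) := by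
  have hc := pl_cont hh
  obtain ⟨D, k, hD, hb⟩ := pl_pb hh
  obtain ⟨C, m, hC, hl⟩ := hh
  have hR : ∀ j : ℕ, (1 : ℝ) ≤ (j : ℝ) + 1 := fun j => by
    have : (0 : ℝ) ≤ j := Nat.cast_nonneg j
    linarith
  have hI : ∀ j : ℕ, ∫ x, (h x * chi ((j : ℝ) + 1) x) * inner ℝ x v ∂(gam n) =
      ∫ x, fderiv ℝ (fun x => h x * chi ((j : ℝ) + 1) x) x v ∂(gam n) := fun j =>
    Pool.Agent.W762.FV.main n _ _ (trunc_lip hC hD hl hb (hR j)) v
  have hcc : ∀ R : ℝ, Continuous (fun x : E n => chi R x) := fun R => by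
    unfold chi
    fun_prop
  have l1 : Tendsto (fun j : ℕ => ∫ x, (h x * chi ((j : ℝ) + 1) x) * inner ℝ x v ∂(gam n)) atTop
      (𝓝 (∫ x, h x * inner ℝ x v ∂(gam n))) := by
    refine tendsto_integral_of_dominated_convergence
      (fun x => D * ‖v‖ * (1 + ‖x‖) ^ (k + 1)) (fun j => ?_)
      ((int_pow n (k + 1)).const_mul _) (fun j => Eventually.of_forall fun x => ?_)
      (Eventually.of_forall fun x => ?_)
    · exact ((hc.mul (hcc _)).mul (by fun_prop)).aestronglyMeasurable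
    · rw [Real.norm_eq_abs, abs_mul, abs_mul, abs_of_nonneg (chi_nonneg _ x)]
      have hx := norm_nonneg x
      calc |h x| * chi ((j : ℝ) + 1) x * |inner ℝ x v|
          ≤ (D * (1 + ‖x‖) ^ k) * 1 * (‖x‖ * ‖v‖) := by
            refine mul_le_mul (mul_le_mul (hb x) (chi_le _ x) (chi_nonneg _ x) (by positivity))
              (abs_real_inner_le_norm x v) (abs_nonneg _) (by positivity)
        _ ≤ (D * (1 + ‖x‖) ^ k) * 1 * ((1 + ‖x‖) * ‖v‖) := by
          gcongr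
          linarith
        _ = _ := by rw [pow_succ]; ring
    · obtain ⟨N, hN⟩ := exists_nat_gt ‖x‖
      refine tendsto_const_nhds.congr' ?_
      filter_upwards [eventually_ge_atTop N] with j hj
      have h1 : (N : ℝ) ≤ j := by exact_mod_cast hj
      rw [chi_one (by linarith [hR j]) (by linarith), mul_one]
  have l2 : Tendsto (fun j : ℕ => ∫ x, fderiv ℝ (fun x => h x * chi ((j : ℝ) + 1) x) x v
      ∂(gam n)) atTop (𝓝 (∫ x, fderiv ℝ h x v ∂(gam n))) := by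
    refine tendsto_integral_of_dominated_convergence
      (fun x => ((C + D) * 2 ^ (m + k) * ‖v‖) * (1 + ‖x‖) ^ (m + k)) (fun j => ?_)
      ((int_pow n (m + k)).const_mul _) (fun j => Eventually.of_forall fun x => ?_)
      (Eventually.of_forall fun x => ?_)
    · exact ((measurable_fderiv_apply_const ℝ _ v)).aestronglyMeasurable
    · have h1 := fd_bound (by positivity) (trunc hC hD hl hb (hR j)) x
      refine ((fderiv ℝ (fun x => h x * chi ((j : ℝ) + 1) x) x).le_opNorm v).trans ?_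
      calc ‖fderiv ℝ (fun x => h x * chi ((j : ℝ) + 1) x) x‖ * ‖v‖
          ≤ ((C + D) * 2 ^ (m + k) * (1 + ‖x‖) ^ (m + k)) * ‖v‖ :=
            mul_le_mul_of_nonneg_right h1 (norm_nonneg v)
        _ = _ := by ring
    · obtain ⟨N, hN⟩ := exists_nat_gt ‖x‖
      refine tendsto_const_nhds.congr' ?_
      filter_upwards [eventually_ge_atTop N] with j hj
      have h1 : (N : ℝ) ≤ j := by exact_mod_cast hj
      have h2 : (fun x => h x * chi ((j : ℝ) + 1) x) =ᶠ[𝓝 x] h := by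
        have hball : ball (0 : E n) ((j : ℝ) + 1) ∈ 𝓝 x := isOpen_ball.mem_nhds (by
          rw [mem_ball_zero_iff]
          linarith)
        filter_upwards [hball] with y hy
        rw [mem_ball_zero_iff] at hy
        rw [chi_one (by linarith [hR j]) hy.le, mul_one]
      rw [h2.fderiv_eq]
  simp_rw [hI] at l1
  exact tendsto_nhds_unique l1 l2

theorem pl_add {n : ℕ} {f g : E n → ℝ} (hf : PL f) (hg : PL g) : PL (fun x => f x + g x) := by
  obtain ⟨C, m, hC, h⟩ := hf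
  obtain ⟨D, k, hD, h'⟩ := hg
  refine ⟨C + D, m + k, by positivity, fun x y => ?_⟩
  have hx := norm_nonneg x
  have hy := norm_nonneg y
  have h1 := pow_mono (one_le_bb x y) (Nat.le_add_right m k)
  have h2 := pow_mono (one_le_bb x y) (Nat.le_add_left k m)
  calc |f x + g x - (f y + g y)| = |(f x - f y) + (g x - g y)| := by ring_nf
    _ ≤ |f x - f y| + |g x - g y| := abs_add_le _ _
    _ ≤ C * (1 + ‖x‖ + ‖y‖) ^ m * ‖x - y‖ + D * (1 + ‖x‖ + ‖y‖) ^ k * ‖x - y‖ :=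
      add_le_add (h x y) (h' x y)
    _ ≤ C * (1 + ‖x‖ + ‖y‖) ^ (m + k) * ‖x - y‖ + D * (1 + ‖x‖ + ‖y‖) ^ (m + k) * ‖x - y‖ := by
      gcongr
    _ = _ := by ring

theorem pl_neg {n : ℕ} {f : E n → ℝ} (hf : PL f) : PL (fun x => -f x) := by
  obtain ⟨C, m, hC, h⟩ := hf
  refine ⟨C, m, hC, fun x y => ?_⟩
  have e : -f x - -f y = -(f x - f y) := by ring
  rw [e, abs_neg]
  exact h x y

theorem pl_mul {n : ℕ} {f g : E n → ℝ} (hf : PL f) (hg : PL g) : PL (fun x => f x * g x) := by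
  obtain ⟨A, a, hA, h0⟩ := pl_pb hf
  obtain ⟨B, b, hB, h0'⟩ := pl_pb hg
  obtain ⟨C, m, hC, h⟩ := hf
  obtain ⟨D, k, hD, h'⟩ := hg
  refine ⟨A * D + B * C, a + k + (b + m), by positivity, fun x y => ?_⟩
  have hx := norm_nonneg x
  have hy := norm_nonneg y
  have h1 := pow_mono (one_le_bb x y) (Nat.le_add_right (a + k) (b + m))
  have h2 := pow_mono (one_le_bb x y) (Nat.le_add_left (b + m) (a + k))
  have h3 : (1 + ‖x‖) ^ a ≤ (1 + ‖x‖ + ‖y‖) ^ a :=
    pow_le_pow_left₀ (by positivity) (by linarith) a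
  have h4 : (1 + ‖y‖) ^ b ≤ (1 + ‖x‖ + ‖y‖) ^ b :=
    pow_le_pow_left₀ (by positivity) (by linarith) b
  calc |f x * g x - f y * g y| = |f x * (g x - g y) + g y * (f x - f y)| := by ring_nf
    _ ≤ |f x * (g x - g y)| + |g y * (f x - f y)| := abs_add_le _ _
    _ = |f x| * |g x - g y| + |g y| * |f x - f y| := by rw [abs_mul, abs_mul]
    _ ≤ (A * (1 + ‖x‖ + ‖y‖) ^ a) * (D * (1 + ‖x‖ + ‖y‖) ^ k * ‖x - y‖) +
        (B * (1 + ‖x‖ + ‖y‖) ^ b) * (C * (1 + ‖x‖ + ‖y‖) ^ m * ‖x - y‖) := by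
      refine add_le_add (mul_le_mul ((h0 x).trans (mul_le_mul_of_nonneg_left h3 hA)) (h' x y)
        (abs_nonneg _) (by positivity)) (mul_le_mul ((h0' y).trans
          (mul_le_mul_of_nonneg_left h4 hB)) (h x y) (abs_nonneg _) (by positivity))
    _ = A * D * (1 + ‖x‖ + ‖y‖) ^ (a + k) * ‖x - y‖ +
        B * C * (1 + ‖x‖ + ‖y‖) ^ (b + m) * ‖x - y‖ := by
      rw [pow_add, pow_add]
      ring
    _ ≤ A * D * (1 + ‖x‖ + ‖y‖) ^ (a + k + (b + m)) * ‖x - y‖ +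
        B * C * (1 + ‖x‖ + ‖y‖) ^ (a + k + (b + m)) * ‖x - y‖ := by
      gcongr
    _ = _ := by ring

theorem pl_const (n : ℕ) (c : ℝ) : PL (fun _ : E n => c) :=
  ⟨0, 0, le_rfl, fun x y => by simp⟩

theorem pl_inner {n : ℕ} (u : E n) : PL (fun x : E n => (inner ℝ u x : ℝ)) :=
  ⟨‖u‖, 0, norm_nonneg u, fun x y => by
    rw [← inner_sub_right, pow_zero, mul_one]
    exact abs_real_inner_le_norm u (x - y)⟩

theorem main : PLBasic := by
  intro n
  refine ⟨fun h hh => ⟨pl_cont hh, pl_pb hh, (gam_ac n).ae_le (pl_diff hh), pl_diff hh, pl_fd hh,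
    measurable_fderiv ℝ h, pl_ibp hh⟩, fun f g hf hg => ⟨pl_add hf hg, ?_, pl_mul hf hg⟩,
    fun f g hf hg => ⟨pb_add hf hg, pb_mul hf hg⟩, pl_const n, pl_inner,
    fun f hf hb => pb_int f hf.aestronglyMeasurable hb,
    fun f hf hb => pb_int f hf.aestronglyMeasurable hb⟩
  have h1 := pl_add hf (pl_neg hg)
  simpa only [sub_eq_add_neg] using h1

end Pool.Agent.Q162.FC.PL
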