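import Pool.Agent.Q188.FC.StmG
import Pool.Agent.Q162.FC.PL

/-!
# Project FC, lemma CD: the variance as the integral of the correlation of the gradient
-/

set_option autoImplicit false

open MeasureTheory Filter Topology Metric

namespace Pool.Agent.Q162.FC.CD

open Pool.Agent.W716.FV (E gam gd UU)
open Pool.Agent.Q188.FC
open Pool.Agent.Q162.FC.PL (prob int_pow pl_cont pl_pb pl_diff pl_fd pl_ibp pb_int fd_bound
  gam_ac one_le_b)

/-- the orthogonal involution of `E n × E n` -/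
def TT {n : ℕ} (c s : ℝ) (p : E n × E n) : E n × E n := (c • p.1 + s • p.2, s • p.1 - c • p.2)

/-- as a linear map -/
def TL {n : ℕ} (c s : ℝ) : (E n × E n) →ₗ[ℝ] (E n × E n) :=
  LinearMap.prod (c • LinearMap.fst ℝ (E n) (E n) + s • LinearMap.snd ℝ (E n) (E n))
    (s • LinearMap.fst ℝ (E n) (E n) - c • LinearMap.snd ℝ (E n) (E n))

theorem TL_apply {n : ℕ} (c s : ℝ) (p : E n × E n) : TL c s p = TT c s p := by
  simp [TL, TT]

theorem TT_TT {n : ℕ} {c s : ℝ} (h : c ^ 2 + s ^ 2 = 1) (p : E n × E n) :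
    TT c s (TT c s p) = p := by
  have h1 : c * c + s * s = 1 := by rw [← h]; ring
  ext1
  · calc c • (c • p.1 + s • p.2) + s • (s • p.1 - c • p.2) = (c * c + s * s) • p.1 := by module
      _ = p.1 := by rw [h1, one_smul]
  · calc s • (c • p.1 + s • p.2) - c • (s • p.1 - c • p.2) = (c * c + s * s) • p.2 := by module
      _ = p.2 := by rw [h1, one_smul]

theorem TT_cont {n : ℕ} (c s : ℝ) : Continuous (TT (n := n) c s) := by
  unfold TT
  fun_prop

theorem vol_rot {n : ℕ} {c s : ℝ} (h : c ^ 2 + s ^ 2 = 1) :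
    MeasurePreserving (TT (n := n) c s) ((volume : Measure (E n)).prod volume)
      ((volume : Measure (E n)).prod volume) := by
  refine ⟨(TT_cont c s).measurable, ?_⟩
  have h2 : (TL (n := n) c s).comp (TL c s) = LinearMap.id := by
    refine LinearMap.ext fun p => ?_
    rw [LinearMap.comp_apply, TL_apply, TL_apply, TT_TT h, LinearMap.id_apply]
  have h3 : LinearMap.det (TL (n := n) c s) * LinearMap.det (TL (n := n) c s) = 1 := by
    rw [← LinearMap.det_comp, h2, LinearMap.det_id]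
  have h4 : LinearMap.det (TL (n := n) c s) ≠ 0 := by
    intro h0
    rw [h0] at h3
    norm_num at h3
  have h5 : |(LinearMap.det (TL (n := n) c s))⁻¹| = 1 := by
    rcases mul_self_eq_one_iff.1 h3 with h6 | h6 <;> rw [h6] <;> norm_num
  have h6 := Measure.map_linearMap_addHaar_eq_smul_addHaar
    ((volume : Measure (E n)).prod volume) h4
  rw [h5, ENNReal.ofReal_one, one_smul] at h6
  have h7 : (TT (n := n) c s) = ⇑(TL (n := n) c s) := by
    funext p
    rw [TL_apply]
  rw [h7]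
  exact h6

theorem gd_prod {n : ℕ} {c s : ℝ} (h : c ^ 2 + s ^ 2 = 1) (p : E n × E n) :
    gd n (TT c s p).1 * gd n (TT c s p).2 = gd n p.1 * gd n p.2 := by
  have e : ‖(TT c s p).1‖ ^ 2 + ‖(TT c s p).2‖ ^ 2 = ‖p.1‖ ^ 2 + ‖p.2‖ ^ 2 := by
    unfold TT
    simp only
    rw [norm_add_sq_real, norm_sub_sq_real, inner_smul_left, inner_smul_right, inner_smul_left,
      inner_smul_right, norm_smul, norm_smul, norm_smul, norm_smul, mul_pow, mul_pow, mul_pow,
      mul_pow, Real.norm_eq_abs, Real.norm_eq_abs, sq_abs, sq_abs]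
    simp only [conj_trivial]
    linear_combination (‖p.1‖ ^ 2 + ‖p.2‖ ^ 2) * h
  unfold gd
  have e2 : Real.exp (-‖(TT c s p).1‖ ^ 2 / 2) * Real.exp (-‖(TT c s p).2‖ ^ 2 / 2) =
      Real.exp (-‖p.1‖ ^ 2 / 2) * Real.exp (-‖p.2‖ ^ 2 / 2) := by
    rw [← Real.exp_add, ← Real.exp_add]
    congr 1
    linarith
  linear_combination ((√(2 * Real.pi))⁻¹ ^ n * (√(2 * Real.pi))⁻¹ ^ n) * e2

/-- rotation invariance of the product of two Gaussian measures -/
theorem rot {n : ℕ} {c s : ℝ} (h : c ^ 2 + s ^ 2 = 1) :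
    MeasurePreserving (TT (n := n) c s) ((gam n).prod (gam n)) ((gam n).prod (gam n)) := by
  have hm := Pool.Agent.W933.FVGM.meas_ofReal_gd n
  have hd : (gam n).prod (gam n) = ((volume : Measure (E n)).prod volume).withDensity
      (fun p => ENNReal.ofReal (gd n p.1) * ENNReal.ofReal (gd n p.2)) := by
    unfold gam
    exact prod_withDensity hm hm
  have hgm : Measurable (fun p : E n × E n =>
      ENNReal.ofReal (gd n p.1) * ENNReal.ofReal (gd n p.2)) :=
    (hm.comp measurable_fst).mul (hm.comp measurable_snd)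
  have hg : ∀ p : E n × E n, ENNReal.ofReal (gd n (TT c s p).1) *
      ENNReal.ofReal (gd n (TT c s p).2) = ENNReal.ofReal (gd n p.1) * ENNReal.ofReal (gd n p.2) := by
    intro p
    rw [← ENNReal.ofReal_mul (Pool.Agent.W933.FVGM.gd_nonneg n _), gd_prod h,
      ENNReal.ofReal_mul (Pool.Agent.W933.FVGM.gd_nonneg n _)]
  rw [hd]
  refine ⟨(TT_cont c s).measurable, ?_⟩
  ext A hA
  rw [Measure.map_apply (TT_cont c s).measurable hA,
    withDensity_apply _ ((TT_cont c s).measurable hA), withDensity_apply _ hA,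
    ← (vol_rot h).setLIntegral_comp_preimage hA hgm]
  refine setLIntegral_congr_fun ((TT_cont c s).measurable hA) fun p _ => ?_
  exact (hg p).symm

/-- the law of `c x + s y` -/
theorem law {n : ℕ} {c s : ℝ} (h : c ^ 2 + s ^ 2 = 1) :
    MeasurePreserving (fun p : E n × E n => c • p.1 + s • p.2) ((gam n).prod (gam n)) (gam n) := by
  have := prob n
  have h1 : MeasurePreserving (Prod.fst : E n × E n → E n) ((gam n).prod (gam n)) (gam n) :=
    measurePreserving_fst
  exact h1.comp (rot h)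

theorem prod_bound {n : ℕ} (x y : E n) {c s : ℝ} (hc : |c| ≤ 1) (hs : |s| ≤ 1) :
    1 + ‖c • x + s • y‖ ≤ (1 + ‖x‖) * (1 + ‖y‖) := by
  have h1 : ‖c • x + s • y‖ ≤ ‖x‖ + ‖y‖ := by
    refine (norm_add_le _ _).trans (add_le_add ?_ ?_)
    · rw [norm_smul, Real.norm_eq_abs]
      exact mul_le_of_le_one_left (norm_nonneg _) hc
    · rw [norm_smul, Real.norm_eq_abs]
      exact mul_le_of_le_one_left (norm_nonneg _) hs
  have h2 : 0 ≤ ‖x‖ * ‖y‖ := by positivity
  nlinarith

/-- integrability and a uniform bound -/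
theorem fg_bound {n : ℕ} {F G : E n → ℝ} {A B : ℝ} {a b : ℕ} (hA : 0 ≤ A) (hB : 0 ≤ B)
    (hF : ∀ x, |F x| ≤ A * (1 + ‖x‖) ^ a) (hG : ∀ x, |G x| ≤ B * (1 + ‖x‖) ^ b)
    {c s : ℝ} (hc : |c| ≤ 1) (hs : |s| ≤ 1) (x y : E n) :
    |F x * G (c • x + s • y)| ≤ A * B * ((1 + ‖x‖) ^ (a + b) * (1 + ‖y‖) ^ b) := by
  have hx := norm_nonneg x
  have hy := norm_nonneg y
  rw [abs_mul]
  calc |F x| * |G (c • x + s • y)| ≤ (A * (1 + ‖x‖) ^ a) * (B * ((1 + ‖x‖) * (1 + ‖y‖)) ^ b) := by
        refine mul_le_mul (hF x) ((hG _).trans (mul_le_mul_of_nonneg_left ?_ hB)) (abs_nonneg _)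
          (by positivity)
        exact pow_le_pow_left₀ (by positivity) (prod_bound x y hc hs) b
    _ = _ := by rw [mul_pow, pow_add]; ring

theorem int_pp (n a b : ℕ) : Integrable (fun p : E n × E n => (1 + ‖p.1‖) ^ a * (1 + ‖p.2‖) ^ b)
    ((gam n).prod (gam n)) := by
  have := prob n
  exact (int_pow n a).mul_prod (int_pow n b)

theorem fg_int {n : ℕ} {F G : E n → ℝ} (hFm : Measurable F) (hGm : Measurable G)
    (hF : PB F) (hG : PB G) {c s : ℝ} (hc : |c| ≤ 1) (hs : |s| ≤ 1) :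
    Integrable (fun p : E n × E n => F p.1 * G (c • p.1 + s • p.2)) ((gam n).prod (gam n)) := by
  obtain ⟨A, a, hA, hF⟩ := hF
  obtain ⟨B, b, hB, hG⟩ := hG
  refine ((int_pp n (a + b) b).const_mul (A * B)).mono' ?_ (Eventually.of_forall fun p => ?_)
  · exact ((hFm.comp measurable_fst).mul (hGm.comp (by fun_prop))).aestronglyMeasurable
  · rw [Real.norm_eq_abs]
    exact fg_bound hA hB hF hG hc hs p.1 p.2

theorem cs_le {c s : ℝ} (h : c ^ 2 + s ^ 2 = 1) : |c| ≤ 1 ∧ |s| ≤ 1 := by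
  constructor <;> apply abs_le_of_sq_le_sq <;> nlinarith [sq_nonneg c, sq_nonneg s]

/-- bound of the correlation -/
theorem cor_bd {n : ℕ} {F : E n → ℝ} (hFm : Measurable F) (hF : PB F) :
    ∃ K : ℝ, ∀ ρ ∈ Set.Icc (0 : ℝ) 1, |cor F ρ| ≤ K := by
  have := prob n
  have hF0 := hF
  obtain ⟨A, a, hA, hF⟩ := hF
  refine ⟨∫ p : E n × E n, A * A * ((1 + ‖p.1‖) ^ (a + a) * (1 + ‖p.2‖) ^ a)
    ∂((gam n).prod (gam n)), fun ρ hρ => ?_⟩
  have h1 : ρ ^ 2 + √(1 - ρ ^ 2) ^ 2 = 1 := by
    rw [Real.sq_sqrt (by nlinarith [hρ.1, hρ.2])]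
    ring
  obtain ⟨h2, h3⟩ := cs_le h1
  have h4 : cor F ρ = ∫ p : E n × E n, F p.1 * F (ρ • p.1 + √(1 - ρ ^ 2) • p.2)
      ∂((gam n).prod (gam n)) := by
    unfold cor
    exact (integral_prod _ (fg_int hFm hFm hF0 hF0 h2 h3)).symm
  rw [h4, ← Real.norm_eq_abs]
  refine (norm_integral_le_integral_norm _).trans ?_
  refine integral_mono_of_nonneg (Eventually.of_forall fun p => norm_nonneg _)
    ((int_pp n (a + a) a).const_mul (A * A)) (Eventually.of_forall fun p => ?_)
  simp only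
  rw [Real.norm_eq_abs]
  exact fg_bound hA hA hF hF h2 h3 p.1 p.2

/-- measurability of the correlation -/
theorem cor_meas {n : ℕ} {F : E n → ℝ} (hFm : Measurable F) : StronglyMeasurable (cor F) := by
  have := prob n
  have h1 : Measurable (fun q : (ℝ × E n) × E n =>
      F q.1.2 * F (q.1.1 • q.1.2 + √(1 - q.1.1 ^ 2) • q.2)) := by
    refine (hFm.comp (by fun_prop)).mul (hFm.comp ?_)
    fun_prop
  have h2 : StronglyMeasurable (fun q : ℝ × E n =>
      ∫ y, F q.2 * F (q.1 • q.2 + √(1 - q.1 ^ 2) • y) ∂(gam n)) :=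
    h1.stronglyMeasurable.integral_prod_right (f := fun (q : ℝ × E n) (y : E n) =>
      F q.2 * F (q.1 • q.2 + √(1 - q.1 ^ 2) • y))
  exact h2.integral_prod_right (f := fun (ρ : ℝ) (x : E n) =>
    ∫ y, F x * F (ρ • x + √(1 - ρ ^ 2) • y) ∂(gam n))

theorem fd_aff {n : ℕ} (h : E n → ℝ) (a : E n) {s : ℝ} (hs : s ≠ 0) (v e : E n) :
    fderiv ℝ (fun v => h (a + s • v)) v e = s * fderiv ℝ h (a + s • v) e := by
  by_cases hd : DifferentiableAt ℝ h (a + s • v)
  · have h1 : HasFDerivAt (fun v : E n => a + s • v) (s • ContinuousLinearMap.id ℝ (E n)) v :=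
      ((hasFDerivAt_id v).const_smul s).const_add a
    have h2 := hd.hasFDerivAt.comp v h1
    have h3 : fderiv ℝ (fun v => h (a + s • v)) v =
        (fderiv ℝ h (a + s • v)).comp (s • ContinuousLinearMap.id ℝ (E n)) := h2.fderiv
    rw [h3]
    simp
  · have h1 : ¬ DifferentiableAt ℝ (fun v => h (a + s • v)) v := by
      intro h2
      apply hd
      have e1 : h = (fun v => h (a + s • v)) ∘ (fun u : E n => s⁻¹ • (u - a)) := by
        funext u
        simp only [Function.comp_apply]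
        rw [smul_smul, mul_inv_cancel₀ hs, one_smul]
        congr 1
        abel
      rw [e1]
      refine DifferentiableAt.comp _ ?_ (by fun_prop)
      have e2 : s⁻¹ • (a + s • v - a) = v := by
        rw [add_sub_cancel_left, smul_smul, inv_mul_cancel₀ hs, one_smul]
      rw [e2]
      exact h2
    rw [fderiv_zero_of_not_differentiableAt hd, fderiv_zero_of_not_differentiableAt h1]
    simp

theorem pl_aff {n : ℕ} {h : E n → ℝ} (hh : PL h) (a : E n) (s : ℝ) :
    PL (fun v => h (a + s • v)) := by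
  obtain ⟨C, m, hC, hl⟩ := hh
  refine ⟨C * (1 + 2 * ‖a‖ + |s|) ^ m * |s|, m, by positivity, fun x y => ?_⟩
  have hx := norm_nonneg x
  have hy := norm_nonneg y
  have ha := norm_nonneg a
  have hs := abs_nonneg s
  have h1 : ‖a + s • x‖ ≤ ‖a‖ + |s| * ‖x‖ := by
    refine (norm_add_le _ _).trans ?_
    rw [norm_smul, Real.norm_eq_abs]
  have h2 : ‖a + s • y‖ ≤ ‖a‖ + |s| * ‖y‖ := by
    refine (norm_add_le _ _).trans ?_
    rw [norm_smul, Real.norm_eq_abs]
  have h3 : 1 + ‖a + s • x‖ + ‖a + s • y‖ ≤ (1 + 2 * ‖a‖ + |s|) * (1 + ‖x‖ + ‖y‖) := by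
    nlinarith [mul_nonneg ha hx, mul_nonneg ha hy]
  have h4 : a + s • x - (a + s • y) = s • (x - y) := by module
  have h5 := hl (a + s • x) (a + s • y)
  rw [h4, norm_smul, Real.norm_eq_abs] at h5
  refine h5.trans ?_
  calc C * (1 + ‖a + s • x‖ + ‖a + s • y‖) ^ m * (|s| * ‖x - y‖)
      ≤ C * ((1 + 2 * ‖a‖ + |s|) * (1 + ‖x‖ + ‖y‖)) ^ m * (|s| * ‖x - y‖) := by
        gcongr
    _ = _ := by rw [mul_pow]; ring

theorem clm_sum {n : ℕ} (L : E n →L[ℝ] ℝ) (v : E n) :
    L v = ∑ i, v i * L (EuclideanSpace.single i 1) := by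
  have h1 : v = ∑ i, v i • (EuclideanSpace.single i (1 : ℝ) : E n) := by
    ext j
    simp [Pi.single_apply]
  conv_lhs => rw [h1]
  rw [map_sum]
  exact Finset.sum_congr rfl fun i _ => by rw [map_smul, smul_eq_mul]

/-- the derivatives in the coordinate directions -/
noncomputable def pd {n : ℕ} (h : E n → ℝ) (i : Fin n) (x : E n) : ℝ :=
  fderiv ℝ h x (EuclideanSpace.single i 1)

theorem pd_meas {n : ℕ} (h : E n → ℝ) (i : Fin n) : Measurable (pd h i) :=
  measurable_fderiv_apply_const ℝ h _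

theorem pd_pb {n : ℕ} {h : E n → ℝ} (hh : PL h) (i : Fin n) : PB (pd h i) := by
  obtain ⟨C, m, hC, h1⟩ := pl_fd hh
  refine ⟨C, m, hC, fun x => ?_⟩
  have h2 := h1 x
  rw [abs_of_nonneg (norm_nonneg _)] at h2
  refine le_trans ?_ h2
  have h3 := (fderiv ℝ h x).le_opNorm (EuclideanSpace.single i 1)
  simp only [PiLp.norm_single, norm_one, mul_one] at h3
  exact h3

theorem trig_lip (t t' : ℝ) : |Real.cos t - Real.cos t'| ≤ |t - t'| ∧
    |Real.sin t - Real.sin t'| ≤ |t - t'| := by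
  constructor
  · have h1 := Convex.norm_image_sub_le_of_norm_deriv_le (𝕜 := ℝ) (f := Real.cos) (C := 1)
      (s := Set.univ) (x := t') (y := t) (fun x _ => Real.differentiable_cos x)
      (fun x _ => by
        rw [Real.deriv_cos, norm_neg, Real.norm_eq_abs]
        exact Real.abs_sin_le_one x) convex_univ (Set.mem_univ _) (Set.mem_univ _)
    rw [one_mul] at h1
    exact h1
  · have h1 := Convex.norm_image_sub_le_of_norm_deriv_le (𝕜 := ℝ) (f := Real.sin) (C := 1)
      (s := Set.univ) (x := t') (y := t) (fun x _ => Real.differentiable_sin x)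
      (fun x _ => by
        rw [Real.deriv_sin, Real.norm_eq_abs]
        exact Real.abs_cos_le_one x) convex_univ (Set.mem_univ _) (Set.mem_univ _)
    rw [one_mul] at h1
    exact h1

/-- the correlation as a function of the angle -/
noncomputable def DD {n : ℕ} (h : E n → ℝ) (t : ℝ) : ℝ :=
  ∫ p : E n × E n, h p.1 * h (Real.cos t • p.1 + Real.sin t • p.2) ∂((gam n).prod (gam n))

theorem cs1 (t : ℝ) : Real.cos t ^ 2 + Real.sin t ^ 2 = 1 := by
  rw [add_comm]
  exact Real.sin_sq_add_cos_sq t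

/-- derivative with respect to the angle, first form -/
theorem DD_deriv {n : ℕ} {h : E n → ℝ} (hh : PL h) (t : ℝ) :
    HasDerivAt (DD h) (∫ p : E n × E n, h p.1 * fderiv ℝ h (Real.cos t • p.1 + Real.sin t • p.2)
      (-Real.sin t • p.1 + Real.cos t • p.2) ∂((gam n).prod (gam n))) t := by
  have := prob n
  have hc := pl_cont hh
  have hm := hc.measurable
  have hd := pl_diff hh
  have hpb := pl_pb hh
  have hpb' := pl_pb hh
  obtain ⟨D, k, hD, hb⟩ := hpb'
  have hh' := hh
  obtain ⟨C, m, hC, hl⟩ := hh'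
  have hmeas : ∀ t : ℝ, Measurable (fun p : E n × E n =>
      h p.1 * h (Real.cos t • p.1 + Real.sin t • p.2)) := fun t =>
    (hm.comp measurable_fst).mul (hm.comp (by fun_prop))
  refine (hasDerivAt_integral_of_dominated_loc_of_lip
    (F := fun (t : ℝ) (p : E n × E n) => h p.1 * h (Real.cos t • p.1 + Real.sin t • p.2))
    (bound := fun p : E n × E n => D * C * 2 ^ m *
      ((1 + ‖p.1‖) ^ (k + m + 1) * (1 + ‖p.2‖) ^ (m + 1)))
    (s := Set.univ) (x₀ := t) univ_mem (Eventually.of_forall fun t =>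
      (hmeas t).aestronglyMeasurable) ?_ ?_ ?_ ?_ ?_).2
  · exact fg_int hm hm hpb hpb (cs_le (cs1 t)).1 (cs_le (cs1 t)).2
  · have e : (fun p : E n × E n => h p.1 * fderiv ℝ h (Real.cos t • p.1 + Real.sin t • p.2)
        (-Real.sin t • p.1 + Real.cos t • p.2)) = fun p : E n × E n => h p.1 *
        ∑ i, (-Real.sin t • p.1 + Real.cos t • p.2) i *
          pd h i (Real.cos t • p.1 + Real.sin t • p.2) := by
      funext p
      rw [clm_sum]
      rfl
    rw [e]
    refine ((hm.comp measurable_fst).mul (Finset.measurable_fun_sum _ fun i _ =>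
      Measurable.mul ?_ ((pd_meas h i).comp (by fun_prop)))).aestronglyMeasurable
    fun_prop
  · refine Eventually.of_forall fun p => ?_
    apply LipschitzOnWith.of_dist_le_mul
    intro t1 _ t2 _
    have hx := norm_nonneg p.1
    have hy := norm_nonneg p.2
    rw [Real.dist_eq, Real.dist_eq]
    have e0 : ((Real.nnabs (D * C * 2 ^ m *
      ((1 + ‖p.1‖) ^ (k + m + 1) * (1 + ‖p.2‖) ^ (m + 1))) : NNReal) : ℝ) = D * C * 2 ^ m *
      ((1 + ‖p.1‖) ^ (k + m + 1) * (1 + ‖p.2‖) ^ (m + 1)) := by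
      rw [Real.coe_nnabs, abs_of_nonneg (by positivity)]
    rw [e0, ← mul_sub, abs_mul]
    obtain ⟨c1, s1⟩ := cs_le (cs1 t1)
    obtain ⟨c2, s2⟩ := cs_le (cs1 t2)
    obtain ⟨l1, l2⟩ := trig_lip t1 t2
    have g1 := prod_bound p.1 p.2 c1 s1
    have g2 := prod_bound p.1 p.2 c2 s2
    have g3 : 1 + ‖Real.cos t1 • p.1 + Real.sin t1 • p.2‖ +
        ‖Real.cos t2 • p.1 + Real.sin t2 • p.2‖ ≤ 2 * ((1 + ‖p.1‖) * (1 + ‖p.2‖)) := by
      linarith
    have g4 : ‖Real.cos t1 • p.1 + Real.sin t1 • p.2 -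
        (Real.cos t2 • p.1 + Real.sin t2 • p.2)‖ ≤ (1 + ‖p.1‖) * (1 + ‖p.2‖) * |t1 - t2| := by
      have e1 : Real.cos t1 • p.1 + Real.sin t1 • p.2 -
        (Real.cos t2 • p.1 + Real.sin t2 • p.2) = (Real.cos t1 - Real.cos t2) • p.1 +
          (Real.sin t1 - Real.sin t2) • p.2 := by module
      rw [e1]
      calc ‖(Real.cos t1 - Real.cos t2) • p.1 + (Real.sin t1 - Real.sin t2) • p.2‖
          ≤ |t1 - t2| * ‖p.1‖ + |t1 - t2| * ‖p.2‖ := by
            refine (norm_add_le _ _).trans (add_le_add ?_ ?_)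
            · rw [norm_smul, Real.norm_eq_abs]
              exact mul_le_mul_of_nonneg_right l1 hx
            · rw [norm_smul, Real.norm_eq_abs]
              exact mul_le_mul_of_nonneg_right l2 hy
        _ ≤ _ := by
          have h0 : 0 ≤ |t1 - t2| * (1 + ‖p.1‖ * ‖p.2‖) := by positivity
          nlinarith
    calc |h p.1| * |h (Real.cos t1 • p.1 + Real.sin t1 • p.2) -
          h (Real.cos t2 • p.1 + Real.sin t2 • p.2)|
        ≤ (D * (1 + ‖p.1‖) ^ k) * (C * (2 * ((1 + ‖p.1‖) * (1 + ‖p.2‖))) ^ m *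
          ((1 + ‖p.1‖) * (1 + ‖p.2‖) * |t1 - t2|)) := by
          refine mul_le_mul (hb _) ((hl _ _).trans ?_) (abs_nonneg _) (by positivity)
          refine mul_le_mul (mul_le_mul_of_nonneg_left ?_ hC) g4 (norm_nonneg _) (by positivity)
          exact pow_le_pow_left₀ (by positivity) g3 m
      _ = _ := by
        rw [mul_pow, mul_pow, pow_succ, pow_add, pow_succ]
        ring
  · exact (int_pp n _ _).const_mul _
  · have h1 : ∀ᵐ x ∂(gam n), DifferentiableAt ℝ h x := (gam_ac n).ae_le hd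
    have h2 := (law (n := n) (cs1 t)).quasiMeasurePreserving.ae h1
    filter_upwards [h2] with p hp
    have h3 : HasDerivAt (fun t : ℝ => Real.cos t • p.1 + Real.sin t • p.2)
        (-Real.sin t • p.1 + Real.cos t • p.2) t :=
      ((Real.hasDerivAt_cos t).smul_const p.1).add ((Real.hasDerivAt_sin t).smul_const p.2)
    exact (hp.hasFDerivAt.comp_hasDerivAt t h3).const_mul (h p.1)

/-- derivative with respect to the angle, second form -/
theorem DD_deriv2 {n : ℕ} {h : E n → ℝ} (hh : PL h) {t : ℝ} (ht : 0 < Real.sin t) :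
    HasDerivAt (DD h) (-(Real.sin t * ∑ i, cor (pd h i) (Real.cos t))) t := by
  have := prob n
  have hm := (pl_cont hh).measurable
  refine (DD_deriv hh t).congr_deriv ?_
  set c := Real.cos t with hc
  set s := Real.sin t with hs
  have h1 : c ^ 2 + s ^ 2 = 1 := cs1 t
  obtain ⟨hc1, hs1⟩ := cs_le h1
  have hroot : √(1 - c ^ 2) = s := by
    have e : 1 - c ^ 2 = s ^ 2 := by linarith
    rw [e, Real.sqrt_sq ht.le]
  -- the integrand after rotation
  set G : E n × E n → ℝ := fun q => ∑ i, -(pd h i q.1 * (h (c • q.1 + s • q.2) * q.2 i)) with hG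
  have hGm : ∀ i, Measurable (fun q : E n × E n => pd h i q.1 * (h (c • q.1 + s • q.2) * q.2 i)) :=
    fun i => ((pd_meas h i).comp measurable_fst).mul
      ((hm.comp (by fun_prop)).mul (by fun_prop))
  have hGi : ∀ i, Integrable (fun q : E n × E n => pd h i q.1 * (h (c • q.1 + s • q.2) * q.2 i))
      ((gam n).prod (gam n)) := by
    intro i
    obtain ⟨A, a, hA, hF⟩ := pd_pb hh i
    obtain ⟨B, b, hB, hH⟩ := pl_pb hh
    refine ((int_pp n (a + b) (b + 1)).const_mul (A * B)).mono' (hGm i).aestronglyMeasurable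
      (Eventually.of_forall fun q => ?_)
    rw [Real.norm_eq_abs, ← mul_assoc, abs_mul]
    have hq : |q.2 i| ≤ 1 + ‖q.2‖ := by
      have h2 := EuclideanSpace.norm_eq q.2
      have h3 : |q.2 i| ≤ ‖q.2‖ := by
        have := PiLp.norm_apply_le q.2 i
        rwa [Real.norm_eq_abs] at this
      linarith
    have hx := norm_nonneg q.1
    have hy := norm_nonneg q.2
    calc |pd h i q.1 * h (c • q.1 + s • q.2)| * |q.2 i|
        ≤ (A * B * ((1 + ‖q.1‖) ^ (a + b) * (1 + ‖q.2‖) ^ b)) * (1 + ‖q.2‖) :=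
          mul_le_mul (fg_bound hA hB hF hH hc1 hs1 q.1 q.2) hq (abs_nonneg _) (by positivity)
      _ = _ := by rw [pow_succ]; ring
  have hGmeas : Measurable G := Finset.measurable_fun_sum _ fun i _ => (hGm i).neg
  have e1 : (∫ p : E n × E n, h p.1 * fderiv ℝ h (c • p.1 + s • p.2)
      (-s • p.1 + c • p.2) ∂((gam n).prod (gam n))) = ∫ q, G q ∂((gam n).prod (gam n)) := by
    rw [← (rot (n := n) h1).map_eq, integral_map (TT_cont c s).measurable.aemeasurable
      hGmeas.aestronglyMeasurable]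
    rw [(rot (n := n) h1).map_eq]
    refine integral_congr_ae (Eventually.of_forall fun p => ?_)
    have hx : c • (TT c s p).1 + s • (TT c s p).2 = p.1 := congrArg Prod.fst (TT_TT h1 p)
    simp only [hG]
    rw [hx, clm_sum, Finset.mul_sum]
    refine Finset.sum_congr rfl fun i _ => ?_
    have e2 : (-s • p.1 + c • p.2) i = -((TT c s p).2 i) := by
      simp [TT]
      ring
    rw [e2]
    change h p.1 * (-(TT c s p).2 i * pd h i (TT c s p).1) = _
    ring
  have e4 : ∫ q, G q ∂((gam n).prod (gam n)) = ∑ i, ∫ q : E n × E n,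
      -(pd h i q.1 * (h (c • q.1 + s • q.2) * q.2 i)) ∂((gam n).prod (gam n)) :=
    integral_finsetSum _ (fun i _ => (hGi i).neg)
  rw [e1, e4, ← mul_neg, ← Finset.sum_neg_distrib, Finset.mul_sum]
  refine Finset.sum_congr rfl fun i _ => ?_
  rw [integral_neg, mul_neg, neg_inj, integral_prod _ (hGi i)]
  unfold cor
  rw [hroot, ← integral_const_mul]
  refine integral_congr_ae (Eventually.of_forall fun w => ?_)
  simp only
  rw [integral_const_mul, integral_const_mul]
  have h5 := pl_ibp (pl_aff hh (c • w) s) (EuclideanSpace.single i (1 : ℝ))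
  have e3 : ∀ x : E n, (inner ℝ x (EuclideanSpace.single i (1 : ℝ)) : ℝ) = x i := by
    intro x
    rw [EuclideanSpace.inner_single_right]
    simp
  simp_rw [e3, fd_aff h (c • w) ht.ne'] at h5
  rw [h5, integral_const_mul]
  unfold pd
  ring

theorem cor_DD {n : ℕ} {h : E n → ℝ} (hh : PL h) {ρ : ℝ} (hρ : ρ ∈ Set.Icc (0 : ℝ) 1) :
    cor h ρ = DD h (Real.arccos ρ) := by
  have := prob n
  have hm := (pl_cont hh).measurable
  have h1 : Real.cos (Real.arccos ρ) = ρ := Real.cos_arccos (by linarith [hρ.1]) hρ.2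
  have h2 : Real.sin (Real.arccos ρ) = √(1 - ρ ^ 2) := Real.sin_arccos ρ
  have h3 := cs_le (cs1 (Real.arccos ρ))
  rw [h1, h2] at h3
  unfold DD cor
  rw [h1, h2]
  exact (integral_prod _ (fg_int hm hm (pl_pb hh) (pl_pb hh) h3.1 h3.2)).symm

theorem main (_h1 : PLBasic) : CorDeriv := by
  intro n h hh
  have := prob n
  have hint : IntervalIntegrable (fun ρ => ∑ i, cor (pd h i) ρ) volume 0 1 := by
    have h1 : ∀ i, IntervalIntegrable (fun ρ => cor (pd h i) ρ) volume 0 1 := by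
      intro i
      obtain ⟨K, hK⟩ := cor_bd (pd_meas h i) (pd_pb hh i)
      rw [intervalIntegrable_iff_integrableOn_Ioc_of_le zero_le_one]
      refine Measure.integrableOn_of_bounded (M := K) (by simp)
        (cor_meas (pd_meas h i)).aestronglyMeasurable ?_
      rw [ae_restrict_iff' measurableSet_Ioc]
      exact Eventually.of_forall fun ρ hρ => hK ρ ⟨hρ.1.le, hρ.2⟩
    have h2 := IntervalIntegrable.sum Finset.univ (f := fun i ρ => cor (pd h i) ρ) fun i _ => h1 i
    refine h2.congr ?_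
    exact fun ρ _ => by simp
  refine ⟨hint, ?_⟩
  have hcont : ContinuousOn (cor h) (Set.Icc 0 1) := by
    have hD : Continuous (DD h) := continuous_iff_continuousAt.2 fun t =>
      (DD_deriv hh t).continuousAt
    exact ((hD.comp Real.continuous_arccos).continuousOn).congr fun ρ hρ => cor_DD hh hρ
  have hder : ∀ ρ ∈ Set.Ioo (0 : ℝ) 1, HasDerivAt (cor h) (∑ i, cor (pd h i) ρ) ρ := by
    intro ρ hρ
    have h1 : Real.cos (Real.arccos ρ) = ρ := Real.cos_arccos (by linarith [hρ.1]) hρ.2.le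
    have h2 : Real.sin (Real.arccos ρ) = √(1 - ρ ^ 2) := Real.sin_arccos ρ
    have h0 : 0 < 1 - ρ ^ 2 := by nlinarith [hρ.1, hρ.2]
    have h3 : 0 < √(1 - ρ ^ 2) := Real.sqrt_pos.2 h0
    have h4 := DD_deriv2 hh (t := Real.arccos ρ) (by rw [h2]; exact h3)
    rw [h1, h2] at h4
    have h5 := Real.hasDerivAt_arccos (x := ρ) (by linarith [hρ.1]) (by linarith [hρ.2])
    have h6 := h4.comp ρ h5
    have h7 : (fun ρ => cor h ρ) =ᶠ[𝓝 ρ] DD h ∘ Real.arccos := by
      filter_upwards [Ioo_mem_nhds hρ.1 hρ.2] with r hr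
      exact cor_DD hh ⟨hr.1.le, hr.2.le⟩
    refine (h6.congr_of_eventuallyEq h7).congr_deriv ?_
    field_simp
  have hftc := intervalIntegral.integral_eq_sub_of_hasDerivAt_of_le zero_le_one hcont hder hint
  have c1 : cor h 1 = ∫ x, h x ^ 2 ∂(gam n) := by
    unfold cor
    refine integral_congr_ae (Eventually.of_forall fun x => ?_)
    simp only
    have e : ∀ y : E n, (1 : ℝ) • x + √(1 - (1 : ℝ) ^ 2) • y = x := fun y => by simp
    simp_rw [e]
    rw [integral_const]
    simp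
    ring
  have c0 : cor h 0 = (∫ x, h x ∂(gam n)) ^ 2 := by
    unfold cor
    have e : ∀ x y : E n, (0 : ℝ) • x + √(1 - (0 : ℝ) ^ 2) • y = y := fun x y => by simp
    simp_rw [e, integral_const_mul, integral_mul_const]
    ring
  rw [c1, c0] at hftc
  exact hftc.symm

end Pool.Agent.Q162.FC.CD
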