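import Pool.Agent.Q188.FC.StmK
import Pool.Agent.W933.FV.GM

/-!
# Project FC, lemma GI: integrals over the graph
-/

set_option autoImplicit false

open MeasureTheory Filter Topology Metric

namespace Pool.Agent.Q162.FC.GI

open Pool.Agent.W716.FV (E gam gd UU)
open Pool.Agent.Q188.FC
open Pool.Agent.W933.FVGM (gd_nonneg continuous_gd int_gam integrable_gam hasFDerivAt_gd)

variable {n : ℕ}

/-- the space component as a function of `t` -/
theorem lam2 (p y : E n) (t : ℝ) : (Lam p (t, y)).2 = NN p y - (lf p * t) • p := rfl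

theorem lam1 (p y : E n) (t : ℝ) : (Lam p (t, y)).1 = lf p * (t - inner ℝ p y) := rfl

theorem lam2_der (p y : E n) (t : ℝ) :
    HasDerivAt (fun t : ℝ => (Lam p (t, y)).2) (-(lf p • p)) t := by
  have h1 : HasDerivAt (fun t : ℝ => (lf p * t) • p) ((lf p * 1) • p) t :=
    ((hasDerivAt_id t).const_mul (lf p)).smul_const p
  have h2 := h1.const_sub (NN p y)
  refine (h2.congr_deriv ?_)
  rw [mul_one]

theorem lam1_der (p y : E n) (t : ℝ) :
    HasDerivAt (fun t : ℝ => (Lam p (t, y)).1) (lf p) t := by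
  have h1 : HasDerivAt (fun t : ℝ => lf p * (t - inner ℝ p y)) (lf p * 1) t :=
    ((hasDerivAt_id t).sub_const _).const_mul (lf p)
  rw [mul_one] at h1
  exact h1

theorem gd_der (p y : E n) (t : ℝ) :
    HasDerivAt (fun t : ℝ => gd n (Lam p (t, y)).2)
      (lf p * inner ℝ (Lam p (t, y)).2 p * gd n (Lam p (t, y)).2) t := by
  have h1 := (hasFDerivAt_gd n (Lam p (t, y)).2).comp_hasDerivAt t (lam2_der p y t)
  refine h1.congr_deriv ?_
  simp only [neg_smul, neg_apply, smul_apply,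
    innerSL_apply_apply, smul_eq_mul, inner_neg_right, inner_smul_right]
  ring

/-- first kernel -/
noncomputable def k1 (p : E n) (q : ℝ × E n) : ℝ :=
  -(lf p * ((2 - ‖q.2‖ ^ 2) * inner ℝ q.2 p)) * gd n q.2

/-- second kernel -/
noncomputable def k2 (p : E n) (q : ℝ × E n) : ℝ :=
  lf p * (2 * q.1 + q.1 ^ 2 * inner ℝ q.2 p) * gd n q.2

theorem k1_cont (p : E n) : Continuous (k1 p) := by
  have h := continuous_gd n
  unfold k1
  fun_prop

theorem k2_cont (p : E n) : Continuous (k2 p) := by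
  have h := continuous_gd n
  unfold k2
  fun_prop

theorem K1_der (p y : E n) (t : ℝ) :
    HasDerivAt (fun t : ℝ => ‖(Lam p (t, y)).2‖ ^ 2 * gd n (Lam p (t, y)).2)
      (k1 p (Lam p (t, y))) t := by
  have h1 := (lam2_der p y t).norm_sq.mul (gd_der p y t)
  refine h1.congr_deriv ?_
  unfold k1
  rw [inner_neg_right, inner_smul_right]
  ring

theorem K2_der (p y : E n) (t : ℝ) :
    HasDerivAt (fun t : ℝ => (Lam p (t, y)).1 ^ 2 * gd n (Lam p (t, y)).2)
      (k2 p (Lam p (t, y))) t := by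
  have h1 := ((lam1_der p y t).pow 2).mul (gd_der p y t)
  refine h1.congr_deriv ?_
  unfold k2
  simp only [Nat.cast_ofNat, Nat.add_one_sub_one, pow_one, Pi.pow_apply]
  ring

theorem lam_cont (p y : E n) : Continuous (fun t : ℝ => Lam p (t, y)) := by
  have e : (fun t : ℝ => Lam p (t, y)) =
      fun t : ℝ => (lf p * (t - inner ℝ p y), NN p y - (lf p * t) • p) := rfl
  rw [e]
  fun_prop

/-- the point on the simultaneity plane -/
theorem lam_plane {p : E n} (hg : 1 ≤ lf p) (y : E n) :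
    Lam p (inner ℝ p y, y) = (0, NI p y) := by
  unfold Lam NN NI
  ext1
  · simp
  · simp only
    have h1 : (1 + lf p) ≠ 0 := by positivity
    have h2 : lf p ^ 2 / (1 + lf p) * (inner ℝ p y : ℝ) - lf p * inner ℝ p y =
        -(lf p / (1 + lf p) * inner ℝ p y) := by
      field_simp
      ring
    have h3 : y + (lf p ^ 2 / (1 + lf p) * (inner ℝ p y : ℝ)) • p -
        (lf p * (inner ℝ p y : ℝ)) • p = y + (lf p ^ 2 / (1 + lf p) * (inner ℝ p y : ℝ) -
          lf p * inner ℝ p y) • p := by module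
    rw [h3, h2, neg_smul, ← sub_eq_add_neg]

/-- change of variables with `N` -/
theorem cov (h1 : BoostAlg) {p : E n} (hp : ‖p‖ < 1) (f : E n → ℝ) (hf : Continuous f)
    (hfi : Integrable f) :
    Integrable (fun y => f (NI p y)) ∧ ∫ y, f (NI p y) = lf p * ∫ z, f z := by
  obtain ⟨g1, -, -, hN, hdet, -, -, -, hIN, hNI, -⟩ := h1 n p hp
  have hg0 : 0 < lf p := by linarith
  have hd : LinearMap.det ((NNL p : E n →L[ℝ] E n) : E n →ₗ[ℝ] E n) = lf p := hdet
  have hd0 : LinearMap.det ((NNL p : E n →L[ℝ] E n) : E n →ₗ[ℝ] E n) ≠ 0 := by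
    rw [hd]
    exact hg0.ne'
  have hmap := Measure.map_linearMap_addHaar_eq_smul_addHaar (volume : Measure (E n)) hd0
  rw [hd, abs_of_pos (inv_pos.2 hg0)] at hmap
  have hcN : Measurable (fun z : E n => ((NNL p : E n →L[ℝ] E n) : E n →ₗ[ℝ] E n) z) :=
    (NNL p).continuous.measurable
  have hcI : Continuous (fun y : E n => NI p y) := by
    unfold NI
    fun_prop
  have hcomp : ∀ z : E n, f (NI p (((NNL p : E n →L[ℝ] E n) : E n →ₗ[ℝ] E n) z)) = f z := by
    intro z
    have : ((NNL p : E n →L[ℝ] E n) : E n →ₗ[ℝ] E n) z = NN p z := hN z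
    rw [this, hIN]
  have hfI : AEStronglyMeasurable (fun y => f (NI p y))
      (Measure.map (fun z : E n => ((NNL p : E n →L[ℝ] E n) : E n →ₗ[ℝ] E n) z) volume) :=
    (hf.comp hcI).aestronglyMeasurable
  have i1 := integral_map hcN.aemeasurable hfI
  have i2 := integrable_map_measure hfI hcN.aemeasurable
  have hmap' : Measure.map (fun z : E n => ((NNL p : E n →L[ℝ] E n) : E n →ₗ[ℝ] E n) z) volume =
      ENNReal.ofReal (lf p)⁻¹ • (volume : Measure (E n)) := hmap
  rw [hmap'] at i1 i2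
  have hne : ENNReal.ofReal (lf p)⁻¹ ≠ 0 := by
    rw [ENNReal.ofReal_ne_zero_iff]
    exact inv_pos.2 hg0
  constructor
  · have h3 : Integrable (fun y => f (NI p y)) (ENNReal.ofReal (lf p)⁻¹ • (volume : Measure (E n))) := by
      rw [i2]
      refine hfi.congr (Eventually.of_forall fun z => ?_)
      exact (hcomp z).symm
    exact (integrable_smul_measure hne ENNReal.ofReal_ne_top).1 h3
  · rw [integral_smul_measure, ENNReal.toReal_ofReal (inv_pos.2 hg0).le] at i1
    simp_rw [hcomp] at i1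
    rw [← i1, smul_eq_mul, ← mul_assoc, mul_inv_cancel₀ hg0.ne', one_mul]

theorem k1_bound {p : E n} (hp : ‖p‖ < 1) (hg : 0 ≤ lf p) (t : ℝ) (z : E n) :
    ‖k1 p (t, z)‖ ≤ 2 * lf p * (1 + ‖z‖) ^ 3 * gd n z := by
  have hz := norm_nonneg z
  have hgd := gd_nonneg n z
  unfold k1
  rw [Real.norm_eq_abs, abs_mul, abs_neg, abs_mul, abs_mul, abs_of_nonneg hg,
    abs_of_nonneg hgd]
  refine mul_le_mul_of_nonneg_right ?_ hgd
  have h1 : |2 - ‖z‖ ^ 2| ≤ 2 + ‖z‖ ^ 2 := by
    rw [abs_le]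
    constructor <;> nlinarith [sq_nonneg ‖z‖]
  have h2 : |(inner ℝ z p : ℝ)| ≤ ‖z‖ := (abs_real_inner_le_norm z p).trans
    (mul_le_of_le_one_right hz hp.le)
  calc lf p * (|2 - ‖z‖ ^ 2| * |(inner ℝ z p : ℝ)|) ≤ lf p * ((2 + ‖z‖ ^ 2) * ‖z‖) := by
        refine mul_le_mul_of_nonneg_left (mul_le_mul h1 h2 (abs_nonneg _) (by positivity)) hg
    _ ≤ lf p * (2 * (1 + ‖z‖) ^ 3) := by
        refine mul_le_mul_of_nonneg_left ?_ hg
        nlinarith [pow_nonneg hz 3, pow_nonneg hz 2]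
    _ = _ := by ring

theorem k2_bound {p : E n} (hp : ‖p‖ < 1) (hg : 0 ≤ lf p) (t : ℝ) (z : E n) (ht : |t| ≤ ‖z‖) :
    ‖k2 p (t, z)‖ ≤ 2 * lf p * (1 + ‖z‖) ^ 3 * gd n z := by
  have hz := norm_nonneg z
  have hgd := gd_nonneg n z
  unfold k2
  rw [Real.norm_eq_abs, abs_mul, abs_mul, abs_of_nonneg hg, abs_of_nonneg hgd]
  refine mul_le_mul_of_nonneg_right ?_ hgd
  have h2 : |(inner ℝ z p : ℝ)| ≤ ‖z‖ := (abs_real_inner_le_norm z p).trans
    (mul_le_of_le_one_right hz hp.le)
  have h3 : t ^ 2 ≤ ‖z‖ ^ 2 := sq_le_sq' (by linarith [neg_abs_le t]) (by linarith [le_abs_self t])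
  calc lf p * |2 * t + t ^ 2 * (inner ℝ z p : ℝ)| ≤ lf p * (2 * ‖z‖ + ‖z‖ ^ 2 * ‖z‖) := by
        refine mul_le_mul_of_nonneg_left ((abs_add_le _ _).trans (add_le_add ?_ ?_)) hg
        · rw [abs_mul, abs_of_pos (by norm_num : (0 : ℝ) < 2)]
          linarith
        · rw [abs_mul, abs_of_nonneg (sq_nonneg t)]
          exact mul_le_mul h3 h2 (abs_nonneg _) (by positivity)
    _ ≤ lf p * (2 * (1 + ‖z‖) ^ 3) := by
        refine mul_le_mul_of_nonneg_left ?_ hg
        nlinarith [pow_nonneg hz 3, pow_nonneg hz 2]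
    _ = _ := by ring

/-- polynomial moments of a function of class `Cc` are integrable -/
theorem int_cc {ψ : E n → ℝ} (hc : Continuous ψ) (hb : ∀ x, |ψ x| ≤ ‖x‖) (a b c : ℕ) (u : E n) :
    Integrable (fun z => ‖z‖ ^ a * (ψ z ^ b * inner ℝ u z ^ c)) (gam n) := by
  have h1 := (Pool.Agent.W933.FVGM.main n).2.1 (a + b + c)
  refine (h1.const_mul (‖u‖ ^ c)).mono' ?_ (Eventually.of_forall fun z => ?_)
  · exact Continuous.aestronglyMeasurable (by fun_prop)
  · have hz := norm_nonneg z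
    rw [Real.norm_eq_abs, abs_mul, abs_mul, abs_pow, abs_pow, abs_pow, abs_norm]
    calc ‖z‖ ^ a * (|ψ z| ^ b * |(inner ℝ u z : ℝ)| ^ c)
        ≤ ‖z‖ ^ a * (‖z‖ ^ b * (‖u‖ * ‖z‖) ^ c) := by
          refine mul_le_mul_of_nonneg_left (mul_le_mul ?_ ?_ (by positivity) (by positivity))
            (by positivity)
          · exact pow_le_pow_left₀ (abs_nonneg _) (hb z) b
          · exact pow_le_pow_left₀ (abs_nonneg _) (abs_real_inner_le_norm u z) c
      _ = _ := by rw [mul_pow, pow_add, pow_add]; ring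

theorem main (h1 : BoostAlg) (h2 : TLs) (h3 : HatLin) (h4 : CcBasic) (h5 : CcMom)
    (_h6 : KerBound) : GraphInt := by
  intro n p hp φ ψ hφ hψ hh
  have hB := h1 n p hp
  have hg1 : 1 ≤ lf p := hB.1
  have hg0 : 0 ≤ lf p := by linarith
  obtain ⟨-, -, hat0, cc0, -, ccp, -⟩ := h3 n p hp
  obtain ⟨-, hψc, hψb, -, -, -, hmv, -, -⟩ := h4 n ψ hψ
  have hmom := (h5 n ψ hψ).2.2.2 p
  have T1 := h2 n p hp (fun y => inner ℝ p y) φ (fun _ => 0) ψ ccp hφ cc0 hψ hat0 hh ℝ (k1 p)
    (2 * lf p) 3 (k1_cont p) (fun t z _ => k1_bound hp hg0 t z)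
  have T2 := h2 n p hp (fun y => inner ℝ p y) φ (fun _ => 0) ψ ccp hφ cc0 hψ hat0 hh ℝ (k2 p)
    (2 * lf p) 3 (k2_cont p) (fun t z ht => k2_bound hp hg0 t z ht)
  -- the fundamental theorem of calculus
  have F1 : ∀ y : E n, ‖(Lam p (φ y, y)).2‖ ^ 2 * gd n (Lam p (φ y, y)).2 =
      ‖NI p y‖ ^ 2 * gd n (NI p y) +
        ∫ t in (inner ℝ p y : ℝ)..φ y, k1 p (Lam p (t, y)) := by
    intro y
    rw [intervalIntegral.integral_eq_sub_of_hasDerivAt (fun t _ => K1_der p y t)
      (((k1_cont p).comp (lam_cont p y)).intervalIntegrable _ _)]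
    rw [lam_plane hg1 y]
    ring
  have F2 : ∀ y : E n, (Lam p (φ y, y)).1 ^ 2 * gd n (Lam p (φ y, y)).2 =
        ∫ t in (inner ℝ p y : ℝ)..φ y, k2 p (Lam p (t, y)) := by
    intro y
    rw [intervalIntegral.integral_eq_sub_of_hasDerivAt (fun t _ => K2_der p y t)
      (((k2_cont p).comp (lam_cont p y)).intervalIntegrable _ _)]
    rw [lam_plane hg1 y]
    simp
  -- the Gaussian second moment
  have hsec : Integrable (fun z : E n => ‖z‖ ^ 2 * gd n z) := by
    have := (integrable_gam _).1 ((Pool.Agent.W933.FVGM.main n).2.1 2)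
    refine this.congr (Eventually.of_forall fun z => ?_)
    simp only
    ring
  have hsec2 : ∫ z : E n, ‖z‖ ^ 2 * gd n z = n := by
    rw [← (Pool.Agent.W933.FVGM.main n).2.2.2.2, int_gam]
    refine integral_congr_ae (Eventually.of_forall fun z => ?_)
    simp only
    ring
  have hcf : Continuous (fun z : E n => ‖z‖ ^ 2 * gd n z) := by
    have := continuous_gd n
    fun_prop
  obtain ⟨C1, C2⟩ := cov h1 hp (fun z : E n => ‖z‖ ^ 2 * gd n z) hcf hsec
  simp_rw [F1, F2]
  refine ⟨C1.add T1.1, T2.1, ?_, ?_⟩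
  · rw [integral_add C1 T1.1, C2, hsec2, T1.2.2]
    have e1 : ∀ z : E n, ∫ t in (0 : ℝ)..ψ z, k1 p (t, z) = gd n z *
        (-(2 * lf p) * (ψ z * inner ℝ p z) + lf p * (‖z‖ ^ 2 * (ψ z * inner ℝ p z))) := by
      intro z
      unfold k1
      simp only
      rw [intervalIntegral.integral_const, smul_eq_mul, real_inner_comm p z]
      ring
    simp_rw [e1]
    have i1 : Integrable (fun z => ψ z * inner ℝ p z) (gam n) := by
      refine (int_cc hψc hψb 0 1 1 p).congr (Eventually.of_forall fun z => ?_)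
      simp
    have i2 : Integrable (fun z => ‖z‖ ^ 2 * (ψ z * inner ℝ p z)) (gam n) := by
      refine (int_cc hψc hψb 2 1 1 p).congr (Eventually.of_forall fun z => ?_)
      simp
    rw [← int_gam, integral_add (i1.const_mul _) (i2.const_mul _), integral_const_mul,
      integral_const_mul, hmom]
    rw [real_inner_comm, hmv p]
    ring
  · rw [T2.2.2]
    have e1 : ∀ z : E n, ∫ t in (0 : ℝ)..ψ z, k2 p (t, z) = gd n z *
        (lf p * ψ z ^ 2 + lf p / 3 * (inner ℝ p z * ψ z ^ 3)) := by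
      intro z
      have hd : ∀ t : ℝ, HasDerivAt (fun t : ℝ => gd n z * (lf p * t ^ 2 +
          lf p / 3 * (inner ℝ p z * t ^ 3))) (k2 p (t, z)) t := by
        intro t
        have := ((((hasDerivAt_id t).pow 2).const_mul (lf p)).add
          ((((hasDerivAt_id t).pow 3).const_mul (inner ℝ p z)).const_mul
            (lf p / 3))).const_mul (gd n z)
        refine this.congr_deriv ?_
        unfold k2
        simp only [id, real_inner_comm p z]
        ring
      rw [intervalIntegral.integral_eq_sub_of_hasDerivAt (fun t _ => hd t)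
        (Continuous.intervalIntegrable (by
          have := k2_cont p
          fun_prop) _ _)]
      ring
    simp_rw [e1]
    have i1 : Integrable (fun z => ψ z ^ 2) (gam n) := by
      refine (int_cc hψc hψb 0 2 0 p).congr (Eventually.of_forall fun z => ?_)
      simp
    have i2 : Integrable (fun z => inner ℝ p z * ψ z ^ 3) (gam n) := by
      refine (int_cc hψc hψb 0 3 1 p).congr (Eventually.of_forall fun z => ?_)
      simp only [pow_zero, one_mul, pow_one]
      ring
    rw [← int_gam, integral_add (i1.const_mul _) (i2.const_mul _), integral_const_mul,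
      integral_const_mul]
    unfold sv bv
    ring

end Pool.Agent.Q162.FC.GI
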